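import Pool.Agent.W459.AD.Defs
import Pool.Agent.W459.AD.BC

set_option autoImplicit false

/-!
# Approximation degree of completely split abstract smoothings

Let `k` be an algebraically closed field. With the definition of the problem file (the minimum over
all `k[[t]]`-bases of the maximal valuation of a nonzero structure constant) every finite flat
`k[[t]]`-algebra has approximation degree `0`: a sufficiently general basis has only units as
structure constants. Together with the existence of completely split abstract smoothings, which is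
proved here as well, this answers both questions.
-/

open Module TensorProduct PowerSeries

universe u

namespace Pool.Agent.Results.MP_a8f336_ag.DegreeZero

open Pool.Agent.W459.AD

theorem hasApproxDegree_zero {k : Type u} [Field k] [IsAlgClosed k] (𝒜 : Type u) [CommRing 𝒜]
    [Algebra k⟦X⟧ 𝒜] [Module.Finite k⟦X⟧ 𝒜] [Module.Flat k⟦X⟧ 𝒜] : HasApproxDegree k 𝒜 0 := by
  classical
  refine ⟨?_, fun _ _ => Nat.zero_le _⟩
  have hfree : Module.Free k⟦X⟧ 𝒜 := Module.free_of_flat_of_isLocalRing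
  let I : Ideal 𝒜 := Ideal.span {algebraMap k⟦X⟧ 𝒜 X}
  let _ : Algebra k (𝒜 ⧸ I) :=
    ((Ideal.Quotient.mk I).comp ((algebraMap k⟦X⟧ 𝒜).comp (C (R := k)))).toAlgebra
  have hφ : IsSpecialFibre k (Ideal.Quotient.mk I) :=
    ⟨Ideal.Quotient.mk_surjective, Ideal.mk_ker, fun c => rfl⟩
  obtain ⟨e, he⟩ := unit_basis hφ (finBasis k⟦X⟧ 𝒜)
  refine ⟨e, ?_⟩
  change ad e = 0
  unfold ad
  rw [← Nat.bot_eq_zero, Finset.sup_eq_bot_iff]
  rintro ⟨i, j, l⟩ _
  have h0 : (e.repr (e i * e j) l).order = 0 := by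
    apply PowerSeries.order_zero_of_unit
    rw [PowerSeries.isUnit_iff_constantCoeff]
    exact isUnit_iff_ne_zero.2 (he i j l)
  simp [h0]

theorem result (k : Type u) [Field k] [IsAlgClosed k] :
    (∀ (𝒜 : Type u) [CommRing 𝒜] [Algebra k⟦X⟧ 𝒜] [Module.Finite k⟦X⟧ 𝒜] [Module.Flat k⟦X⟧ 𝒜],
      HasApproxDegree k 𝒜 0) ∧
    ∀ (A : Type u) [CommRing A] [Algebra k A],
      (∃ (𝒜 : Type u) (_ : CommRing 𝒜) (_ : Algebra k⟦X⟧ 𝒜), IsAbstractSmoothing k A 𝒜) →
      ∃ (𝒜 : Type u) (_ : CommRing 𝒜) (_ : Algebra k⟦X⟧ 𝒜),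
        IsAbstractSmoothing k A 𝒜 ∧ IsCompletelySplit k A 𝒜 ∧ HasApproxDegree k 𝒜 0 := by
  classical
  refine ⟨fun 𝒜 _ _ _ _ => hasApproxDegree_zero 𝒜, ?_⟩
  rintro A _ _ ⟨B, _, _, hfin, hflat, hred, f, hf⟩
  have hfree : Module.Free k⟦X⟧ B := Module.free_of_flat_of_isLocalRing
  let φ : B →+* A := f.toRingHom.comp (Ideal.Quotient.mk _)
  have hφ : IsSpecialFibre k φ := by
    refine ⟨f.surjective.comp Ideal.Quotient.mk_surjective, ?_, hf⟩
    ext x
    rw [RingHom.mem_ker, ← Ideal.Quotient.eq_zero_iff_mem]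
    change f _ = 0 ↔ _
    exact map_eq_zero_iff f f.injective
  set d := finrank k⟦X⟧ B with hd
  let b : Basis (Fin d) k⟦X⟧ B := finBasis k⟦X⟧ B
  have hdA : finrank k A = d := by
    obtain ⟨h1, h2⟩ := fibre_basis hφ b
    rw [finrank_eq_card_basis (Basis.mk h1 h2)]
    simp
  let E := LaurentSeries k
  let Ω := AlgebraicClosure E
  have hredΩ : IsReduced (Ω ⊗[k⟦X⟧] B) := by
    have h1 := (Algebra.isGeometricallyReduced_field_iff E (E ⊗[k⟦X⟧] B)).1 hred
    let g := Algebra.TensorProduct.cancelBaseChange k⟦X⟧ E Ω Ω B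
    exact isReduced_of_injective g.symm g.symm.injective
  obtain ⟨h, hdet⟩ := homs_of_reduced (Ω := Ω) b
  obtain ⟨S, _, _, e, g, he, hX, hdet2⟩ := exists_ext (E := E) b h hdet
  obtain ⟨B', i1, i2, b', φ', g', hφ', hdet3⟩ := base_change' b hφ e he hX g hdet2
  have hfin' : Module.Finite k⟦X⟧ B' := Module.Finite.of_basis b'
  have hfree' : Module.Free k⟦X⟧ B' := Module.Free.of_basis b'
  have hinj : Function.Injective (algebraMap k⟦X⟧ E) := IsFractionRing.injective k⟦X⟧ E
  obtain ⟨s⟩ := split_of_homs (K := E) b'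
    (fun i => (Algebra.ofId k⟦X⟧ E).comp (g' i)) (by
      intro h0
      apply hdet3
      apply hinj
      rw [map_zero, ← h0, RingHom.map_det]
      congr 1)
  refine ⟨B', i1, i2, ⟨hfin', inferInstance, geom_of_split s, ?_⟩, ?_, hasApproxDegree_zero B'⟩
  · let q : (B' ⧸ RingHom.ker φ') ≃+* A := RingHom.quotientKerEquivOfSurjective hφ'.1
    let r : (B' ⧸ Ideal.span {algebraMap k⟦X⟧ B' X}) ≃+* (B' ⧸ RingHom.ker φ') :=
      Ideal.quotEquivOfEq hφ'.2.1.symm
    refine ⟨r.trans q, fun c => ?_⟩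
    rw [← hφ'.2.2 c]
    rfl
  · unfold IsCompletelySplit
    rw [hdA]
    exact ⟨s⟩

end Pool.Agent.Results.MP_a8f336_ag.DegreeZero
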